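import Mathlib

/-!
# MP_c3273b_gt : a zero-dimensional Hausdorff (so Tychonoff), quasi-developable, countably
metacompact, weakly theta-refinable space which is not theta-refinable (in ZFC)

The space.  Take a maximal chain of nondecreasing functions `ℕ → ℕ` with respect to `≤*` (eventual
domination).  It is unbounded with respect to `≤*`; its elements are `c ξ`, `ξ ∈ I`.

Points of the space: `(s, ξ)` with `s` a finite sequence and `ξ ∈ I`; isolated points `(η, ζ)`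
with `η, ζ ∈ I`.  The `n`-th basic neighbourhood of `(s, ξ)` consists of `(s, ξ)` itself, of the points
`(t, ζ)` such that `t` properly extends `s` with the next entry `j ≥ n`, `c ζ` agrees with `c ξ` below `j`
and `c ζ ≤ c ξ` everywhere, and of the isolated points `(η, ζ)` such that `c η` extends `s` with the next
entry `j ≥ n`, `c ζ` agrees with `c ξ` below `j`, `c ζ ≤ c ξ` everywhere, and `c η ≤* c ξ`.
All these sets are clopen.
-/

open Set Topology

namespace Pool.Agent.Results.MP_c3273b_gt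

/-! ### The notions of the question -/

/-- A family of open sets which covers the space. -/
def IsOpenCoverFam {X : Type} [TopologicalSpace X] (U : Set (Set X)) : Prop :=
  (∀ A ∈ U, IsOpen A) ∧ ∀ x : X, ∃ A ∈ U, x ∈ A

/-- Every member of `V` lies in some member of `U`. -/
def RefinesFam {X : Type} (V U : Set (Set X)) : Prop :=
  ∀ A ∈ V, ∃ B ∈ U, A ⊆ B

/-- Theta-refinable: every open cover `U` has open refinements `V 0, V 1, …`, each of them
covering the space, such that every point lies in only finitely many members of some `V n`. -/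
def ThetaRefinable (X : Type) [TopologicalSpace X] : Prop :=
  ∀ U : Set (Set X), IsOpenCoverFam U →
    ∃ V : ℕ → Set (Set X), (∀ n, IsOpenCoverFam (V n) ∧ RefinesFam (V n) U) ∧
      ∀ x : X, ∃ n, {A | A ∈ V n ∧ x ∈ A}.Finite

/-- Weakly theta-refinable: every open cover `U` has an open refinement which is a union of
families `V 0, V 1, …` (not necessarily covers) such that every point lies in at least one and
only finitely many members of some `V n`. -/
def WeaklyThetaRefinable (X : Type) [TopologicalSpace X] : Prop :=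
  ∀ U : Set (Set X), IsOpenCoverFam U →
    ∃ V : ℕ → Set (Set X), (∀ n, (∀ A ∈ V n, IsOpen A) ∧ RefinesFam (V n) U) ∧
      ∀ x : X, ∃ n, {A | A ∈ V n ∧ x ∈ A}.Nonempty ∧ {A | A ∈ V n ∧ x ∈ A}.Finite

/-- Countably metacompact: every countable open cover has a point-finite open refinement. -/
def CountablyMetacompact (X : Type) [TopologicalSpace X] : Prop :=
  ∀ U : Set (Set X), U.Countable → IsOpenCoverFam U →
    ∃ V : Set (Set X), IsOpenCoverFam V ∧ RefinesFam V U ∧ ∀ x : X, {A | A ∈ V ∧ x ∈ A}.Finite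

/-- The star of `x` with respect to a family: the union of the members which contain `x`. -/
def starOf {X : Type} (x : X) (G : Set (Set X)) : Set X := {y | ∃ A ∈ G, x ∈ A ∧ y ∈ A}

/-- Quasi-developable: there are families `G 0, G 1, …` of open sets such that for every `x` and every
open `O` containing `x` some `n` has `x ∈ st(x, G n) ⊆ O`. -/
def QuasiDevelopable (X : Type) [TopologicalSpace X] : Prop :=
  ∃ G : ℕ → Set (Set X), (∀ n, ∀ A ∈ G n, IsOpen A) ∧
    ∀ (x : X) (O : Set X), IsOpen O → x ∈ O → ∃ n, x ∈ starOf x (G n) ∧ starOf x (G n) ⊆ O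

namespace WeakTheta

/-! ### Functions and lists -/

/-- The restriction of `a` to `j`, as a list. -/
def pre (a : ℕ → ℕ) (j : ℕ) : List ℕ := (List.range j).map a

@[simp] lemma length_pre (a : ℕ → ℕ) (j : ℕ) : (pre a j).length = j := by simp [pre]

lemma pre_succ (a : ℕ → ℕ) (j : ℕ) : pre a (j + 1) = pre a j ++ [a j] := by
  simp [pre, List.range_succ]

lemma pre_take (a : ℕ → ℕ) {i j : ℕ} (h : i ≤ j) : (pre a j).take i = pre a i := by
  simp [pre, ← List.map_take, List.take_range, min_eq_left h]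

lemma pre_pre (a : ℕ → ℕ) {i j : ℕ} (h : i ≤ j) : pre a i <+: pre a j := by
  rw [← pre_take a h]; exact List.take_prefix _ _

lemma pre_congr {a b : ℕ → ℕ} {m : ℕ} (h : ∀ i < m, a i = b i) : pre a m = pre b m := by
  unfold pre
  apply List.map_congr_left
  intro i hi
  exact h i (List.mem_range.1 hi)

lemma pre_eq_apply {a b : ℕ → ℕ} {m : ℕ} (h : pre a m = pre b m) {i : ℕ} (hi : i < m) :
    a i = b i := by
  have h5 : (pre a m)[i]? = (pre b m)[i]? := by rw [h]
  simpa [pre, hi] using h5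

/-- Eventual domination. -/
def LeS (a b : ℕ → ℕ) : Prop := ∃ k, ∀ j, k ≤ j → a j ≤ b j

lemma LeS.refl (a : ℕ → ℕ) : LeS a a := ⟨0, fun _ _ => le_rfl⟩

lemma LeS.trans {a b d : ℕ → ℕ} (h : LeS a b) (h' : LeS b d) : LeS a d := by
  obtain ⟨k, hk⟩ := h
  obtain ⟨k', hk'⟩ := h'
  exact ⟨max k k', fun j hj => (hk j (le_trans (le_max_left _ _) hj)).trans
    (hk' j (le_trans (le_max_right _ _) hj))⟩

lemma not_LeS {a b : ℕ → ℕ} (h : ¬ LeS a b) (M : ℕ) : ∃ m, M ≤ m ∧ b m < a m := by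
  by_contra hcon
  push Not at hcon
  exact h ⟨M, hcon⟩

/-- The lists of length `n` with entries bounded by `u`. -/
def box (u : List ℕ → ℕ) : ℕ → Finset (List ℕ)
  | 0 => {[]}
  | (n + 1) => (box u n).biUnion fun τ => (Finset.range (u τ + 1)).image fun i => τ ++ [i]

lemma mem_box {u : List ℕ → ℕ} {a : ℕ → ℕ} (n : ℕ) (h : ∀ i < n, a i ≤ u (pre a i)) :
    pre a n ∈ box u n := by
  induction n with
  | zero => simp [box, pre]
  | succ n ih =>
    rw [box, Finset.mem_biUnion]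
    refine ⟨pre a n, ih fun i hi => h i (by omega), ?_⟩
    rw [Finset.mem_image]
    refine ⟨a n, ?_, (pre_succ a n).symm⟩
    rw [Finset.mem_range]
    exact Nat.lt_succ_of_le (h n (Nat.lt_succ_self n))

/-- `a` is captured by `h`. -/
def Cap (h : List ℕ → ℕ) (a : ℕ → ℕ) : Prop := ∃ k, ∀ j, k ≤ j → a j < h (pre a j)

/-- The captured functions are bounded. -/
lemma exists_bound (h : List ℕ → ℕ) : ∃ g : ℕ → ℕ, ∀ a, Cap h a → LeS a g := by
  refine ⟨fun n => (Finset.range (n + 1)).sup fun K =>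
    (box (fun τ => max K (h τ)) n).sup fun τ => max K (h τ), ?_⟩
  rintro a ⟨k, hk⟩
  let K := (Finset.range k).sup a
  have h1 : ∀ i, a i ≤ max K (h (pre a i)) := by
    intro i
    by_cases hi : i < k
    · exact le_trans (Finset.le_sup (f := a) (Finset.mem_range.2 hi)) (le_max_left _ _)
    · exact le_trans (hk i (by omega)).le (le_max_right _ _)
  refine ⟨K, fun n hn => ?_⟩
  have h2 : pre a n ∈ box (fun τ => max K (h τ)) n := mem_box n fun i _ => h1 i
  have h3 : a n ≤ (box (fun τ => max K (h τ)) n).sup fun τ => max K (h τ) :=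
    (h1 n).trans (Finset.le_sup (f := fun τ => max K (h τ)) h2)
  exact h3.trans (Finset.le_sup (f := fun K => (box (fun τ => max K (h τ)) n).sup
    fun τ => max K (h τ)) (Finset.mem_range.2 (Nat.lt_succ_of_le hn)))

/-- The index set: an unbounded chain of nondecreasing functions. -/
theorem exists_index : ∃ (I : Type) (c : I → ℕ → ℕ), Function.Injective c ∧
    (∀ ξ, Monotone (c ξ)) ∧ (∀ ξ η, LeS (c ξ) (c η) ∨ LeS (c η) (c ξ)) ∧
    ∀ g : ℕ → ℕ, ∃ ξ, ¬ LeS (c ξ) g := by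
  let M : Type := {a : ℕ → ℕ // Monotone a}
  let r : M → M → Prop := fun a b => LeS a.1 b.1
  have hC : IsMaxChain r (maxChain r) := maxChain_spec
  refine ⟨maxChain r, fun ξ => ξ.1.1, ?_, fun ξ => ξ.1.2, ?_, ?_⟩
  · intro ξ η h
    exact Subtype.ext (Subtype.ext h)
  · intro ξ η
    by_cases h : ξ = η
    · subst h
      exact Or.inl (LeS.refl _)
    · exact hC.1 ξ.2 η.2 fun h' => h (Subtype.ext h')
  · intro g
    by_contra hcon
    push Not at hcon
    let g' : M := ⟨fun n => ∑ i ∈ Finset.range (n + 1), (g i + 1), by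
      intro m n hmn
      exact Finset.sum_le_sum_of_subset (Finset.range_mono (by omega))⟩
    have h1 : ∀ n, g n + 1 ≤ g'.1 n := fun n =>
      Finset.single_le_sum (f := fun i => g i + 1) (fun _ _ => Nat.zero_le _)
        (Finset.mem_range.2 (Nat.lt_succ_self n))
    have h2 : IsChain r (insert g' (maxChain r)) := by
      refine hC.1.insert fun b hb _ => Or.inr ?_
      obtain ⟨k, hk⟩ := hcon ⟨b, hb⟩
      exact ⟨k, fun j hj => (hk j hj).trans ((Nat.le_succ _).trans (h1 j))⟩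
    have h3 : maxChain r = insert g' (maxChain r) := hC.2 h2 (Set.subset_insert _ _)
    have h4 : g' ∈ maxChain r := by
      rw [h3]
      exact Set.mem_insert _ _
    obtain ⟨k, hk⟩ := hcon ⟨g', h4⟩
    have h5 := hk k le_rfl
    have h6 := h1 k
    have h7 : g'.1 k ≤ g k := h5
    omega

/-- Countable sets of indices are bounded. -/
lemma exists_upper {I : Type} {c : I → ℕ → ℕ} (htot : ∀ ξ η, LeS (c ξ) (c η) ∨ LeS (c η) (c ξ))
    (hunb : ∀ g : ℕ → ℕ, ∃ ξ, ¬ LeS (c ξ) g) (u : ℕ → I) : ∃ δ, ∀ n, LeS (c (u n)) (c δ) := by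
  obtain ⟨δ, hδ⟩ := hunb fun n => (Finset.range (n + 1)).sup fun i => c (u i) n
  refine ⟨δ, fun n => ?_⟩
  rcases htot (u n) δ with h | h
  · exact h
  · exfalso
    apply hδ
    refine h.trans ⟨n, fun j hj => ?_⟩
    exact Finset.le_sup (f := fun i => c (u i) j) (Finset.mem_range.2 (Nat.lt_succ_of_le hj))

lemma exists_upper' {I : Type} {c : I → ℕ → ℕ} (htot : ∀ ξ η, LeS (c ξ) (c η) ∨ LeS (c η) (c ξ))
    (hunb : ∀ g : ℕ → ℕ, ∃ ξ, ¬ LeS (c ξ) g) {ι : Type} [Countable ι] [Nonempty ι] (u : ι → I) :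
    ∃ δ, ∀ i, LeS (c (u i)) (c δ) := by
  obtain ⟨e, he⟩ := exists_surjective_nat ι
  obtain ⟨δ, hδ⟩ := exists_upper htot hunb fun n => u (e n)
  refine ⟨δ, fun i => ?_⟩
  obtain ⟨n, rfl⟩ := he i
  exact hδ n

lemma exists_upper2 {I : Type} {c : I → ℕ → ℕ} (htot : ∀ ξ η, LeS (c ξ) (c η) ∨ LeS (c η) (c ξ))
    (ξ η : I) : ∃ δ, LeS (c ξ) (c δ) ∧ LeS (c η) (c δ) := by
  rcases htot ξ η with h | h
  · exact ⟨η, h, LeS.refl _⟩
  · exact ⟨ξ, LeS.refl _, h⟩

/-! ### The space -/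

section Space

variable {I : Type} {c : I → ℕ → ℕ}

/-- The points of the space. -/
inductive Pt (I : Type) (c : I → ℕ → ℕ) : Type
  | y (s : List ℕ) (ξ : I) : Pt I c
  | z (η ζ : I) : Pt I c

/-- The finite list `l` is an initial segment of the first coordinate of `p`. -/
def Ext : Pt I c → List ℕ → Prop
  | Pt.y t _, l => l <+: t
  | Pt.z η _, l => pre (c η) l.length = l

/-- The second coordinate of `p`. -/
def snd : Pt I c → ℕ → ℕ
  | Pt.y _ ζ => c ζ
  | Pt.z _ ζ => c ζ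

/-- The condition on the first coordinate of the isolated points. -/
def Below : Pt I c → I → Prop
  | Pt.y _ _, _ => True
  | Pt.z η _, ξ => LeS (c η) (c ξ)

lemma Ext.mono {p : Pt I c} {l l' : List ℕ} (h : Ext p l) (hl : l' <+: l) : Ext p l' := by
  cases p with
  | y t ζ => exact hl.trans h
  | z η ζ =>
    change pre (c η) l.length = l at h
    change pre (c η) l'.length = l'
    rw [← pre_take (c η) hl.length_le, h]
    exact (List.prefix_iff_eq_take.1 hl).symm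

lemma Ext.comparable {p : Pt I c} {l l' : List ℕ} (h : Ext p l) (h' : Ext p l')
    (hl : l.length ≤ l'.length) : l <+: l' := by
  cases p with
  | y t ζ => exact List.prefix_of_prefix_length_le h h' hl
  | z η ζ =>
    change pre (c η) l.length = l at h
    change pre (c η) l'.length = l' at h'
    rw [← h, ← h']
    simpa using pre_pre (c η) hl

lemma Ext.unique {p : Pt I c} {s : List ℕ} {j j' : ℕ} (h : Ext p (s ++ [j]))
    (h' : Ext p (s ++ [j'])) : j = j' := by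
  have h1 := h.comparable h' (by simp)
  have h2 : s ++ [j] = s ++ [j'] := h1.eq_of_length (by simp)
  simpa using h2

/-- The relation defining the neighbourhoods. -/
def Rel (n : ℕ) (p : Pt I c) (s : List ℕ) (ξ : I) : Prop :=
  Below p ξ ∧ (∃ j, n ≤ j ∧ Ext p (s ++ [j]) ∧ ∀ i < j, snd p i = c ξ i) ∧ ∀ i, snd p i ≤ c ξ i

/-- The basic neighbourhoods. -/
def B (c : I → ℕ → ℕ) (n : ℕ) (s : List ℕ) (ξ : I) : Set (Pt I c) :=
  {p | p = Pt.y s ξ ∨ Rel n p s ξ}

lemma mem_B (n : ℕ) (s : List ℕ) (ξ : I) : (Pt.y s ξ : Pt I c) ∈ B c n s ξ := Or.inl rfl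

lemma Rel.mono {m n : ℕ} (hmn : m ≤ n) {p : Pt I c} {s : List ℕ} {ξ : I} (h : Rel n p s ξ) :
    Rel m p s ξ := by
  obtain ⟨h1, ⟨j, hj, h2⟩, h3⟩ := h
  exact ⟨h1, ⟨j, hmn.trans hj, h2⟩, h3⟩

lemma B_mono {m n : ℕ} (hmn : m ≤ n) (s : List ℕ) (ξ : I) : B c n s ξ ⊆ B c m s ξ := by
  rintro p (h | h)
  · exact Or.inl h
  · exact Or.inr (h.mono hmn)

lemma Below.trans {p : Pt I c} {ζ ξ : I} (h : Below p ζ) (h' : LeS (c ζ) (c ξ)) : Below p ξ := by
  cases p with
  | y t θ => trivial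
  | z η θ => exact LeS.trans h h'

lemma leS_of_le {a b : ℕ → ℕ} (h : ∀ i, a i ≤ b i) : LeS a b := ⟨0, fun i _ => h i⟩

lemma Rel.trans {n : ℕ} {s t : List ℕ} {ξ ζ : I} (h : Rel n (Pt.y t ζ : Pt I c) s ξ) :
    ∃ k, ∀ q : Pt I c, Rel k q t ζ → Rel n q s ξ := by
  obtain ⟨_, ⟨j, hj, h2, h4⟩, h3⟩ := h
  refine ⟨j, ?_⟩
  rintro q ⟨h1', ⟨j', hj', h2', h4'⟩, h3'⟩
  refine ⟨h1'.trans (leS_of_le h3), ⟨j, hj, ?_, ?_⟩, fun i => (h3' i).trans (h3 i)⟩
  · exact (h2'.mono (List.prefix_append _ _)).mono h2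
  · intro i hi
    rw [h4' i (lt_of_lt_of_le hi hj')]
    exact h4 i hi

instance instTop : TopologicalSpace (Pt I c) where
  IsOpen O := ∀ s ξ, Pt.y s ξ ∈ O → ∃ n, B c n s ξ ⊆ O
  isOpen_univ := fun s ξ _ => ⟨0, subset_univ _⟩
  isOpen_inter := by
    intro O P hO hP s ξ h
    obtain ⟨n, hn⟩ := hO s ξ h.1
    obtain ⟨m, hm⟩ := hP s ξ h.2
    exact ⟨max n m, subset_inter ((B_mono (le_max_left _ _) s ξ).trans hn)
      ((B_mono (le_max_right _ _) s ξ).trans hm)⟩
  isOpen_sUnion := by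
    intro S hS s ξ h
    obtain ⟨O, hO, hmem⟩ := h
    obtain ⟨n, hn⟩ := hS O hO s ξ hmem
    exact ⟨n, hn.trans (subset_sUnion_of_mem hO)⟩

lemma isOpen_def {O : Set (Pt I c)} : IsOpen O ↔ ∀ s ξ, Pt.y s ξ ∈ O → ∃ n, B c n s ξ ⊆ O :=
  Iff.rfl

lemma isOpen_B (n : ℕ) (s : List ℕ) (ξ : I) : IsOpen (B c n s ξ) := by
  rw [isOpen_def]
  rintro t ζ (h | h)
  · cases h
    exact ⟨n, Subset.rfl⟩
  · obtain ⟨k, hk⟩ := h.trans
    refine ⟨k, ?_⟩
    rintro q (hq | hq)
    · subst hq; exact Or.inr h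
    · exact Or.inr (hk q hq)

lemma isOpen_z (η ζ : I) : IsOpen ({Pt.z η ζ} : Set (Pt I c)) := by
  rw [isOpen_def]
  intro s ξ h
  simp at h

lemma exists_B_subset {O : Set (Pt I c)} (hO : IsOpen O) {s : List ℕ} {ξ : I}
    (h : Pt.y s ξ ∈ O) : ∃ n, B c n s ξ ⊆ O := isOpen_def.1 hO s ξ h

lemma nhds_basis_y (s : List ℕ) (ξ : I) :
    (𝓝 (Pt.y s ξ : Pt I c)).HasBasis (fun _ : ℕ => True) (fun n => B c n s ξ) := by
  constructor
  intro t
  rw [mem_nhds_iff]
  constructor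
  · rintro ⟨O, hOt, hO, hmem⟩
    obtain ⟨n, hn⟩ := isOpen_def.1 hO s ξ hmem
    exact ⟨n, trivial, hn.trans hOt⟩
  · rintro ⟨n, _, hn⟩
    exact ⟨B c n s ξ, hn, isOpen_B n s ξ, mem_B n s ξ⟩

lemma firstCountable : FirstCountableTopology (Pt I c) := by
  constructor
  intro p
  cases p with
  | y s ξ => exact (nhds_basis_y s ξ).isCountablyGenerated
  | z η ζ =>
    have h := (isOpen_singleton_iff_nhds_eq_pure (Pt.z η ζ : Pt I c)).1 (isOpen_z η ζ)
    rw [h]
    infer_instance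

lemma snoc_ne {s t : List ℕ} {j m : ℕ} (h : s ++ [j] <+: t) (hj : m ≤ j) (hm : t.sum < m) : False := by
  have h1 : j ∈ t := h.subset (by simp)
  have h2 : j ≤ t.sum := List.single_le_sum (by simp) j h1
  omega


lemma ext_z {I : Type} {c : I → ℕ → ℕ} {η ζ : I} {s : List ℕ} {j : ℕ}
    (h : Ext (Pt.z η ζ : Pt I c) (s ++ [j])) : pre (c η) s.length = s ∧ j = c η s.length := by
  have h5 : pre (c η) (s ++ [j]).length = s ++ [j] := h
  have h6 : pre (c η) s.length = s := h.mono (List.prefix_append _ _)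
  refine ⟨h6, ?_⟩
  rw [List.length_append, List.length_singleton, pre_succ, h6] at h5
  simpa using h5.symm

/-- Every other point is outside of some basic neighbourhood. -/
lemma sep_point {p : Pt I c} {s : List ℕ} {ξ : I} (h : p ≠ Pt.y s ξ) : ∃ n, p ∉ B c n s ξ := by
  cases p with
  | y t ζ =>
    refine ⟨t.sum + 1, ?_⟩
    rintro (h1 | ⟨_, ⟨j, hj, h2, _⟩, _⟩)
    · exact h h1
    · exact snoc_ne h2 hj (Nat.lt_succ_self _)
  | z η ζ =>
    refine ⟨c η s.length + 1, ?_⟩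
    rintro (h1 | ⟨_, ⟨j, hj, h2, _⟩, _⟩)
    · exact h h1
    · have := (ext_z h2).2
      omega

/-- The basic neighbourhoods are closed. -/
lemma isClosed_B (hc : Function.Injective c) (n : ℕ) (s : List ℕ) (ξ : I) :
    IsClosed (B c n s ξ) := by
  classical
  rw [← isOpen_compl_iff, isOpen_def]
  intro t ζ hnot
  have hA : ∃ A : ℕ, c ζ ≠ c ξ → ∃ i < A, c ζ i ≠ c ξ i := by
    by_cases h : c ζ = c ξ
    · exact ⟨0, fun h' => absurd h h'⟩
    · obtain ⟨i, hi⟩ := Function.ne_iff.1 h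
      exact ⟨i + 1, fun _ => ⟨i, Nat.lt_succ_self i, hi⟩⟩
  have hD : ∃ D : ℕ, (∃ i, c ξ i < c ζ i) → ∃ i < D, c ξ i < c ζ i := by
    by_cases h : ∃ i, c ξ i < c ζ i
    · obtain ⟨i, hi⟩ := h
      exact ⟨i + 1, fun _ => ⟨i, Nat.lt_succ_self i, hi⟩⟩
    · exact ⟨0, fun h' => absurd h' h⟩
  obtain ⟨A, hA⟩ := hA
  obtain ⟨D, hD⟩ := hD
  refine ⟨s.sum + 1 + (t.sum + 1) + A + D, ?_⟩
  intro p hp hp'
  rcases hp with hp | ⟨_, ⟨j', hj', he', ha'⟩, hl'⟩
  · subst hp
    exact hnot hp'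
  · rcases hp' with hp' | ⟨_, ⟨j, hj, he, ha⟩, hl⟩
    · subst hp'
      exact snoc_ne (show t ++ [j'] <+: s from he') hj' (by omega)
    · rcases lt_trichotomy t.length s.length with h | h | h
      · have h1 : t ++ [j'] <+: s := he'.comparable (he.mono (List.prefix_append _ _))
          (by simp; omega)
        exact snoc_ne h1 hj' (by omega)
      · have h1 : t <+: s := (he'.mono (List.prefix_append _ _)).comparable
          (he.mono (List.prefix_append _ _)) (le_of_eq h)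
        have h2 : t = s := h1.eq_of_length h
        subst h2
        have h3 : j = j' := he.unique he'
        subst h3
        by_cases h4 : c ζ = c ξ
        · exact hnot (Or.inl (by rw [hc h4]))
        · obtain ⟨i, hi, hne⟩ := hA h4
          apply hne
          rw [← ha' i (by omega), ha i (by omega)]
      · have h1 : s ++ [j] <+: t := he.comparable (he'.mono (List.prefix_append _ _))
          (by simp; omega)
        have h2 : j ≤ t.sum := List.single_le_sum (by simp) j (h1.subset (by simp))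
        by_cases h3 : ∃ i, c ξ i < c ζ i
        · obtain ⟨i, hi, hlt⟩ := hD h3
          have h4 := ha' i (by omega)
          have h5 := hl i
          omega
        · push Not at h3
          refine hnot (Or.inr ⟨trivial, ⟨j, hj, h1, fun i hi => ?_⟩, h3⟩)
          have h4 : snd p i = c ζ i := ha' i (by omega)
          rw [← ha i hi, h4]
          rfl

lemma isClosed_z (η ζ : I) : IsClosed ({Pt.z η ζ} : Set (Pt I c)) := by
  rw [← isOpen_compl_iff, isOpen_def]
  intro s ξ _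
  obtain ⟨n, hn⟩ := sep_point (p := (Pt.z η ζ : Pt I c)) (s := s) (ξ := ξ) (by simp)
  refine ⟨n, ?_⟩
  intro p hp hp'
  rw [mem_singleton_iff] at hp'
  subst hp'
  exact hn hp

/-- The space is zero-dimensional. -/
lemma clopen_basis (hc : Function.Injective c) :
    TopologicalSpace.IsTopologicalBasis {A : Set (Pt I c) | IsClopen A} := by
  refine TopologicalSpace.isTopologicalBasis_of_isOpen_of_nhds (fun A hA => hA.isOpen) ?_
  intro p O hp hO
  cases p with
  | y s ξ =>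
    obtain ⟨n, hn⟩ := exists_B_subset hO hp
    exact ⟨B c n s ξ, ⟨isClosed_B hc n s ξ, isOpen_B n s ξ⟩, mem_B n s ξ, hn⟩
  | z η ζ =>
    exact ⟨{Pt.z η ζ}, ⟨isClosed_z η ζ, isOpen_z η ζ⟩, mem_singleton _, singleton_subset_iff.2 hp⟩

lemma t1 : T1Space (Pt I c) := by
  constructor
  intro p
  cases p with
  | z η ζ => exact isClosed_z η ζ
  | y t ζ =>
    rw [← isOpen_compl_iff, isOpen_def]
    intro s ξ hne
    obtain ⟨n, hn⟩ := sep_point (p := (Pt.y t ζ : Pt I c)) (s := s) (ξ := ξ) fun h => hne h.symm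
    refine ⟨n, ?_⟩
    intro p hp hp'
    rw [mem_singleton_iff] at hp'
    subst hp'
    exact hn hp

lemma t35 (hc : Function.Injective c) : T35Space (Pt I c) := by
  have h1 : T1Space (Pt I c) := t1
  have h2 : CompletelyRegularSpace (Pt I c) :=
    CompletelyRegularSpace.of_isTopologicalBasis_clopens (clopen_basis hc)
  exact {}

/-! ### Quasi-developability and weak theta-refinability -/

lemma not_rel_same {n : ℕ} {s t : List ℕ} {ξ ζ : I} (hl : t.length ≤ s.length) :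
    ¬ Rel n (Pt.y t ζ : Pt I c) s ξ := by
  rintro ⟨_, ⟨j, _, h2, _⟩, _⟩
  have h3 : s ++ [j] <+: t := h2
  have := h3.length_le
  simp at this
  omega

lemma quasiDevelopable : QuasiDevelopable (Pt I c) := by
  let G : ℕ → Set (Set (Pt I c)) := fun k =>
    match k with
    | 0 => {A | ∃ η ζ, A = {Pt.z η ζ}}
    | (k + 1) => {A | ∃ s ξ, s.length = k.unpair.1 ∧ A = B c k.unpair.2 s ξ}
  refine ⟨G, ?_, ?_⟩
  · intro k
    cases k with
    | zero => rintro A ⟨η, ζ, rfl⟩; exact isOpen_z η ζ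
    | succ k => rintro A ⟨s, ξ, _, rfl⟩; exact isOpen_B _ s ξ
  · intro x O hO hx
    cases x with
    | z η ζ =>
      refine ⟨0, ⟨{Pt.z η ζ}, ⟨η, ζ, rfl⟩, mem_singleton _, mem_singleton _⟩, ?_⟩
      rintro p ⟨A, ⟨η', ζ', rfl⟩, h1, h2⟩
      rw [mem_singleton_iff] at h1 h2
      rw [h2, ← h1]
      exact hx
    | y s ξ =>
      obtain ⟨n, hn⟩ := exists_B_subset hO hx
      refine ⟨Nat.pair s.length n + 1, ⟨B c n s ξ, ⟨s, ξ, by simp, by simp⟩, mem_B _ _ _,
        mem_B _ _ _⟩, ?_⟩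
      rintro p ⟨A, ⟨t, ζ, hl, rfl⟩, h1, h2⟩
      rw [Nat.unpair_pair] at hl h1 h2
      rcases h1 with h1 | h1
      · cases h1
        exact hn h2
      · exact absurd h1 (not_rel_same (le_of_eq hl.symm))

lemma weaklyThetaRefinable : WeaklyThetaRefinable (Pt I c) := by
  intro U hU
  have hch : ∀ (s : List ℕ) (ξ : I), ∃ n, ∃ A ∈ U, B c n s ξ ⊆ A := by
    intro s ξ
    obtain ⟨A, hA, hmem⟩ := hU.2 (Pt.y s ξ)
    obtain ⟨n, hn⟩ := exists_B_subset (hU.1 A hA) hmem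
    exact ⟨n, A, hA, hn⟩
  choose N hN using hch
  let V : ℕ → Set (Set (Pt I c)) := fun m =>
    match m with
    | 0 => {A | ∃ η ζ, A = {Pt.z η ζ}}
    | (m + 1) => {A | ∃ s ξ, s.length = m ∧ A = B c (N s ξ) s ξ}
  refine ⟨V, ?_, ?_⟩
  · intro m
    cases m with
    | zero =>
      refine ⟨?_, ?_⟩
      · rintro A ⟨η, ζ, rfl⟩; exact isOpen_z η ζ
      · rintro A ⟨η, ζ, rfl⟩
        obtain ⟨A, hA, hmem⟩ := hU.2 (Pt.z η ζ)
        exact ⟨A, hA, singleton_subset_iff.2 hmem⟩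
    | succ m =>
      refine ⟨?_, ?_⟩
      · rintro A ⟨s, ξ, _, rfl⟩; exact isOpen_B _ s ξ
      · rintro A ⟨s, ξ, _, rfl⟩; exact hN s ξ
  · intro x
    cases x with
    | z η ζ =>
      refine ⟨0, ⟨{Pt.z η ζ}, ⟨η, ζ, rfl⟩, mem_singleton _⟩, ?_⟩
      apply (Set.finite_singleton ({Pt.z η ζ} : Set (Pt I c))).subset
      rintro A ⟨⟨η', ζ', rfl⟩, hx⟩
      rw [mem_singleton_iff] at hx ⊢
      rw [hx]
    | y s ξ =>
      refine ⟨s.length + 1, ⟨B c (N s ξ) s ξ, ⟨s, ξ, rfl, rfl⟩, mem_B _ _ _⟩, ?_⟩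
      apply (Set.finite_singleton (B c (N s ξ) s ξ)).subset
      rintro A ⟨⟨t, ζ, hl, rfl⟩, hx⟩
      rw [mem_singleton_iff]
      rcases hx with hx | hx
      · cases hx; rfl
      · exact absurd hx (not_rel_same (le_of_eq hl.symm))

/-! ### Countable metacompactness -/

/-- The main lemma: a rank function whose sublevel sets are open. -/
lemma rank_lemma (hmono : ∀ ξ, Monotone (c ξ))
    (htot : ∀ ξ η, LeS (c ξ) (c η) ∨ LeS (c η) (c ξ))
    (hunb : ∀ g : ℕ → ℕ, ∃ ξ, ¬ LeS (c ξ) g)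
    (f : Pt I c → ℕ) (hf : ∀ s ξ, ∃ n, ∀ p ∈ B c n s ξ, f p ≤ f (Pt.y s ξ)) :
    ∃ N : List ℕ → I → ℕ, (∀ s ξ, ∀ p ∈ B c (N s ξ) s ξ, f p ≤ f (Pt.y s ξ)) ∧
      ∀ p : Pt I c, ∃ b, ∀ s ξ, p ∈ B c (N s ξ) s ξ → f (Pt.y s ξ) ≤ b := by
  classical
  choose n0 hn0 using hf
  -- the countably many sets of indices, and witnesses
  let A : ℕ × List ℕ → Set I := fun q => {ξ | ∃ s, q.2 <+: s ∧ q.1 ≤ f (Pt.y s ξ)}
  have hw : ∀ q : (ℕ × List ℕ) × List ℕ, ∃ a : I,
      (∃ ξ ∈ A q.1, pre (c ξ) q.2.length = q.2) → a ∈ A q.1 ∧ pre (c a) q.2.length = q.2 := by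
    intro q
    by_cases h : ∃ ξ ∈ A q.1, pre (c ξ) q.2.length = q.2
    · obtain ⟨ξ, h1, h2⟩ := h
      exact ⟨ξ, fun _ => ⟨h1, h2⟩⟩
    · exact ⟨(hunb 0).choose, fun h' => absurd h' h⟩
  choose a ha using hw
  obtain ⟨β, hβ⟩ := exists_upper' htot hunb a
  choose l hl using hβ
  obtain ⟨e, he⟩ := exists_surjective_nat (ℕ × List ℕ)
  let E : List ℕ → ℕ := fun τ =>
    (Finset.range (τ.length + 1)).sup fun i => c (a (e i, τ)) (l (e i, τ))
  obtain ⟨g, hg⟩ := exists_bound E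
  obtain ⟨δ0, hδ0⟩ := hunb g
  obtain ⟨δ, hδ0δ, hβδ⟩ := exists_upper2 htot δ0 β
  let Eh : ℕ → ℕ := fun m => (box (fun τ => max (c δ τ.length) m) m).sup E
  obtain ⟨δ1, hδ1⟩ := hunb Eh
  obtain ⟨δ', hδ1δ', hδδ'⟩ := exists_upper2 htot δ1 δ
  let N : List ℕ → I → ℕ := fun s ξ => max (max (n0 s ξ) (f (Pt.y s ξ))) (c δ' s.length + 1)
  have hNn0 : ∀ s ξ, n0 s ξ ≤ N s ξ := fun s ξ => le_trans (le_max_left _ _) (le_max_left _ _)
  have hNf : ∀ s ξ, f (Pt.y s ξ) ≤ N s ξ := fun s ξ => le_trans (le_max_right _ _) (le_max_left _ _)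
  have hNh : ∀ s ξ, c δ' s.length + 1 ≤ N s ξ := fun s ξ => le_max_right _ _
  refine ⟨N, fun s ξ p hp => hn0 s ξ p (B_mono (hNn0 s ξ) s ξ hp), ?_⟩
  intro p
  cases p with
  | y t ζ =>
    -- all `s` are initial segments of `t`
    refine ⟨max (f (Pt.y t ζ)) t.sum, ?_⟩
    rintro s ξ (hp | ⟨_, ⟨j, hj, h2, _⟩, _⟩)
    · cases hp
      exact le_max_left _ _
    · have h3 : j ∈ t := List.IsPrefix.subset h2 (by simp)
      have h4 : j ≤ t.sum := List.single_le_sum (by simp) j h3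
      exact le_trans ((hNf s ξ).trans (hj.trans h4)) (le_max_right _ _)
  | z η ζ =>
    by_cases hη : LeS (c η) (c δ')
    · obtain ⟨k, hk⟩ := hη
      refine ⟨(Finset.range k).sup (c η), ?_⟩
      rintro s ξ (hp | ⟨_, ⟨j, hj, h2, _⟩, _⟩)
      · cases hp
      · have hje := (ext_z h2).2
        have hlen : s.length < k := by
          by_contra hcon
          push Not at hcon
          have h3 := hk s.length hcon
          have h4 := hNh s ξ
          omega
        refine ((hNf s ξ).trans hj).trans ?_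
        rw [hje]
        exact Finset.le_sup (f := c η) (Finset.mem_range.2 hlen)
    · have hη' : LeS (c δ') (c η) := (htot η δ').resolve_left hη
      by_contra hcon
      push Not at hcon
      have hlev : ∀ L : ℕ, ∀ s ξ, Rel (N s ξ) (Pt.z η ζ : Pt I c) s ξ → s.length ≤ L →
          f (Pt.y s ξ) ≤ (Finset.range (L + 1)).sup (c η) := by
        rintro L s ξ ⟨_, ⟨j, hj, h2, _⟩, _⟩ hL
        have hje := (ext_z h2).2
        refine ((hNf s ξ).trans hj).trans ?_
        rw [hje]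
        exact Finset.le_sup (f := c η) (Finset.mem_range.2 (Nat.lt_succ_of_le hL))
      have hrel : ∀ b L : ℕ, ∃ s ξ, Rel (N s ξ) (Pt.z η ζ : Pt I c) s ξ ∧ b < f (Pt.y s ξ) ∧
          L < s.length := by
        intro b L
        obtain ⟨s, ξ, hp, hlt⟩ := hcon (max b ((Finset.range (L + 1)).sup (c η)))
        rcases hp with hp | hp
        · cases hp
        · refine ⟨s, ξ, hp, lt_of_le_of_lt (le_max_left _ _) hlt, ?_⟩
          by_contra hle
          push Not at hle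
          have h1 := hlev L s ξ hp hle
          have h2 := lt_of_le_of_lt (le_max_right _ _) hlt
          omega
      obtain ⟨s0, ξ0, ⟨hb0, ⟨j0, hj0, hext0, hag0⟩, hle0⟩, _, _⟩ := hrel 0 0
      let q : ℕ × List ℕ := (f (Pt.y s0 ξ0) + 1, s0 ++ [j0])
      have hA : ∀ m, ∃ ξ ∈ A q, pre (c ξ) (pre (c ζ) m).length = pre (c ζ) m := by
        intro m
        obtain ⟨s1, ξ1, ⟨_, ⟨j1, hj1, hext1, hag1⟩, _⟩, hbig, hlen⟩ :=
          hrel (max (f (Pt.y s0 ξ0)) m) s0.length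
        refine ⟨ξ1, ⟨s1, ?_, ?_⟩, ?_⟩
        · exact hext0.comparable (hext1.mono (List.prefix_append _ _)) (by simp; omega)
        · exact Nat.succ_le_of_lt (lt_of_le_of_lt (le_max_left _ _) hbig)
        · rw [length_pre]
          refine pre_congr fun i hi => ?_
          have h1 := hNf s1 ξ1
          have h2 := lt_of_le_of_lt (le_max_right _ _) hbig
          exact (hag1 i (by omega)).symm
      have hb0' : LeS (c η) (c ξ0) := hb0
      obtain ⟨M0, hM0⟩ := ((hβδ.trans hδδ').trans hη').trans hb0'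
      obtain ⟨iq, hiq⟩ := he q
      have hesc : ∀ M, ∃ m, M ≤ m ∧ E (pre (c ζ) m) ≤ c ξ0 m := by
        intro M
        by_cases hζ : LeS (c ζ) (c δ)
        · obtain ⟨k0, hk0⟩ := hζ
          obtain ⟨k1, hk1⟩ := hb0'
          have hnot : ¬ LeS (c η) Eh := fun h => hδ1 ((hδ1δ'.trans hη').trans h)
          obtain ⟨m, hm, hlt⟩ := not_LeS hnot (max M (max k1 ((Finset.range k0).sup (c ζ))))
          refine ⟨m, le_trans (le_max_left _ _) hm, ?_⟩
          have hm1 : k1 ≤ m := le_trans (le_max_left _ _) (le_trans (le_max_right _ _) hm)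
          have hm2 : (Finset.range k0).sup (c ζ) ≤ m :=
            le_trans (le_max_right _ _) (le_trans (le_max_right _ _) hm)
          have h1 : pre (c ζ) m ∈ box (fun τ => max (c δ τ.length) m) m := by
            refine mem_box m fun i _ => ?_
            rw [length_pre]
            by_cases hi : i < k0
            · exact le_trans (le_trans (Finset.le_sup (f := c ζ) (Finset.mem_range.2 hi)) hm2)
                (le_max_right _ _)
            · exact le_trans (hk0 i (by omega)) (le_max_left _ _)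
          have h2 : E (pre (c ζ) m) ≤ Eh m := Finset.le_sup (f := E) h1
          exact (h2.trans hlt.le).trans (hk1 m hm1)
        · have hnc : ¬ Cap E (c ζ) := by
            intro hcap
            have h1 := hg _ hcap
            have h2 : LeS (c δ) (c ζ) := (htot ζ δ).resolve_left hζ
            exact hδ0 ((hδ0δ.trans h2).trans h1)
          unfold Cap at hnc
          push Not at hnc
          obtain ⟨m, hm, hge⟩ := hnc M
          exact ⟨m, hm, hge.trans (hle0 m)⟩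
      obtain ⟨m, hm, hE⟩ := hesc (max (max M0 j0) iq)
      have hmM0 : M0 ≤ m := le_trans (le_trans (le_max_left _ _) (le_max_left _ _)) hm
      have hmj0 : j0 ≤ m := le_trans (le_trans (le_max_right _ _) (le_max_left _ _)) hm
      have hmiq : iq ≤ m := le_trans (le_max_right _ _) hm
      obtain ⟨⟨s', hs', hv⟩, hapre⟩ := ha (q, pre (c ζ) m) (hA m)
      have hH : c (a (q, pre (c ζ) m)) (l (q, pre (c ζ) m)) ≤ c ξ0 m := by
        refine le_trans ?_ hE
        have h1 : iq ∈ Finset.range ((pre (c ζ) m).length + 1) := by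
          rw [length_pre, Finset.mem_range]
          omega
        have h2 := Finset.le_sup (f := fun i => c (a (e i, pre (c ζ) m)) (l (e i, pre (c ζ) m))) h1
        rw [hiq] at h2
        exact h2
      have hpre : ∀ i < m, c (a (q, pre (c ζ) m)) i = c ζ i := by
        intro i hi
        simp only [length_pre] at hapre
        exact pre_eq_apply hapre hi
      have hmem : (Pt.y s' (a (q, pre (c ζ) m)) : Pt I c) ∈ B c (n0 s0 ξ0) s0 ξ0 := by
        refine Or.inr ⟨trivial, ⟨j0, (hNn0 s0 ξ0).trans hj0, hs', fun i hi => ?_⟩, fun i => ?_⟩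
        · exact (hpre i (by omega)).trans (hag0 i hi)
        · change c (a (q, pre (c ζ) m)) i ≤ c ξ0 i
          by_cases him : i < m
          · rw [hpre i him]
            exact hle0 i
          · by_cases hil : i ≤ l (q, pre (c ζ) m)
            · exact ((hmono _ hil).trans hH).trans (hmono ξ0 (by omega))
            · exact (hl _ i (by omega)).trans (hM0 i (by omega))
      have h1 := hn0 s0 ξ0 _ hmem
      have h2 : f (Pt.y s0 ξ0) + 1 ≤ f (Pt.y s' (a (q, pre (c ζ) m))) := hv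
      omega

lemma countablyMetacompact (hmono : ∀ ξ, Monotone (c ξ))
    (htot : ∀ ξ η, LeS (c ξ) (c η) ∨ LeS (c η) (c ξ))
    (hunb : ∀ g : ℕ → ℕ, ∃ ξ, ¬ LeS (c ξ) g) : CountablyMetacompact (Pt I c) := by
  classical
  intro U hUc hU
  obtain ⟨δ, _⟩ := hunb 0
  have hne : U.Nonempty := by
    obtain ⟨A, hA, _⟩ := hU.2 (Pt.y [] δ)
    exact ⟨A, hA⟩
  obtain ⟨u, hu⟩ := hUc.exists_eq_range hne
  have huo : ∀ i, IsOpen (u i) := fun i => hU.1 (u i) (by rw [hu]; exact mem_range_self i)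
  have hex : ∀ x, ∃ i, x ∈ u i := by
    intro x
    obtain ⟨A, hA, hx⟩ := hU.2 x
    rw [hu] at hA
    obtain ⟨i, rfl⟩ := hA
    exact ⟨i, hx⟩
  let f : Pt I c → ℕ := fun x => Nat.find (hex x)
  have hfmem : ∀ x, x ∈ u (f x) := fun x => Nat.find_spec (hex x)
  have hfle : ∀ x i, x ∈ u i → f x ≤ i := fun x i h => Nat.find_min' (hex x) h
  obtain ⟨N, hN1, hN2⟩ := rank_lemma hmono htot hunb f (by
    intro s ξ
    obtain ⟨n, hn⟩ := exists_B_subset (huo (f (Pt.y s ξ))) (hfmem (Pt.y s ξ))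
    exact ⟨n, fun p hp => hfle p _ (hn hp)⟩)
  have hch : ∀ s ξ, ∃ n, N s ξ ≤ n ∧ B c n s ξ ⊆ u (f (Pt.y s ξ)) := by
    intro s ξ
    obtain ⟨n, hn⟩ := exists_B_subset (huo (f (Pt.y s ξ))) (hfmem (Pt.y s ξ))
    exact ⟨max n (N s ξ), le_max_right _ _, (B_mono (le_max_left _ _) s ξ).trans hn⟩
  choose M hM1 hM2 using hch
  let V : ℕ → Set (Pt I c) := fun i =>
    {p | (∃ s ξ, f (Pt.y s ξ) = i ∧ p ∈ B c (M s ξ) s ξ) ∨ ∃ η ζ, p = Pt.z η ζ ∧ f p = i}
  refine ⟨range V, ⟨?_, ?_⟩, ?_, ?_⟩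
  · rintro _ ⟨i, rfl⟩
    rw [isOpen_def]
    intro s ξ h
    rcases h with ⟨t, ζ, hf, hmem⟩ | ⟨η, ζ, h, _⟩
    · obtain ⟨n, hn⟩ := exists_B_subset (isOpen_B (M t ζ) t ζ) hmem
      exact ⟨n, fun p hp => Or.inl ⟨t, ζ, hf, hn hp⟩⟩
    · cases h
  · intro x
    cases x with
    | y s ξ => exact ⟨_, ⟨f (Pt.y s ξ), rfl⟩, Or.inl ⟨s, ξ, rfl, mem_B _ _ _⟩⟩
    | z η ζ => exact ⟨_, ⟨f (Pt.z η ζ), rfl⟩, Or.inr ⟨η, ζ, rfl, rfl⟩⟩
  · rintro _ ⟨i, rfl⟩
    refine ⟨u i, by rw [hu]; exact mem_range_self i, ?_⟩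
    rintro p (⟨s, ξ, hf, hmem⟩ | ⟨η, ζ, _, hf⟩)
    · rw [← hf]; exact hM2 s ξ hmem
    · rw [← hf]; exact hfmem p
  · intro x
    obtain ⟨b, hb⟩ := hN2 x
    apply ((Set.finite_Iic (max b (f x))).image V).subset
    rintro _ ⟨⟨i, rfl⟩, hx⟩
    refine ⟨i, ?_, rfl⟩
    rcases hx with ⟨s, ξ, hf, hmem⟩ | ⟨η, ζ, _, hf⟩
    · rw [← hf]
      exact Set.mem_Iic.2 (le_trans (hb s ξ (B_mono (hM1 s ξ) s ξ hmem)) (le_max_left _ _))
    · rw [← hf]; exact Set.mem_Iic.2 (le_max_right _ _)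

/-! ### Failure of theta-refinability -/

/-- Strong nodes of a set of indices. -/
def Str (c : I → ℕ → ℕ) (A : Set I) (τ : List ℕ) : Prop :=
  ∀ β : I, ∃ r : ℕ, ∀ K : ℕ, ∃ ξ ∈ A, pre (c ξ) τ.length = τ ∧ K ≤ c ξ τ.length ∧
    ∀ k, r ≤ k → c β k ≤ c ξ k

lemma str_exists (htot : ∀ ξ η, LeS (c ξ) (c η) ∨ LeS (c η) (c ξ))
    (hunb : ∀ g : ℕ → ℕ, ∃ ξ, ¬ LeS (c ξ) g) (A : Set I) :
    ∃ δ, ∀ ξ ∈ A, ¬ LeS (c ξ) (c δ) → ∀ m0, ∃ m, m0 ≤ m ∧ Str c A (pre (c ξ) m) := by
  classical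
  have h1 : ∀ τ : List ℕ, ∃ β : I, ∀ r : ℕ, ∃ K : ℕ, ¬ Str c A τ → ∀ ξ ∈ A,
      pre (c ξ) τ.length = τ → (∀ k, r ≤ k → c β k ≤ c ξ k) → c ξ τ.length < K := by
    intro τ
    by_cases h : Str c A τ
    · exact ⟨(hunb 0).choose, fun r => ⟨0, fun h' => absurd h h'⟩⟩
    · have h' := h
      unfold Str at h'
      push Not at h'
      obtain ⟨β, hβ⟩ := h'
      refine ⟨β, fun r => ?_⟩
      obtain ⟨K, hK⟩ := hβ r
      refine ⟨K, fun _ ξ hξ hpre hr => ?_⟩
      by_contra hcon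
      push Not at hcon
      obtain ⟨k, hk, hlt⟩ := hK ξ hξ hpre hcon
      exact absurd (hr k hk) (not_le.2 hlt)
  choose βt Kt hKt using h1
  obtain ⟨β, hβ⟩ := exists_upper' htot hunb βt
  choose rt hrt using hβ
  let h : List ℕ → ℕ := fun τ => (Finset.range (τ.length + 1)).sup fun r => Kt τ (max r (rt τ))
  obtain ⟨g, hg⟩ := exists_bound h
  obtain ⟨δ0, hδ0⟩ := hunb g
  obtain ⟨δ, h1, h2⟩ := exists_upper2 htot β δ0
  refine ⟨δ, fun ξ hξ hn m0 => ?_⟩
  by_contra hcon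
  push Not at hcon
  have hδξ : LeS (c δ) (c ξ) := (htot ξ δ).resolve_left hn
  obtain ⟨r, hr⟩ := h1.trans hδξ
  apply hδ0
  refine (h2.trans hδξ).trans (hg _ ⟨max m0 r, fun j hj => ?_⟩)
  have hj1 : m0 ≤ j := le_trans (le_max_left _ _) hj
  have hj2 : r ≤ j := le_trans (le_max_right _ _) hj
  have h3 := hKt (pre (c ξ) j) (max r (rt (pre (c ξ) j))) (hcon j hj1) ξ hξ (by rw [length_pre])
    (fun k hk => (hrt _ k (le_trans (le_max_right _ _) hk)).trans
      (hr k (le_trans (le_max_left _ _) hk)))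
  rw [length_pre] at h3
  refine lt_of_lt_of_le h3 ?_
  have h4 : r ∈ Finset.range ((pre (c ξ) j).length + 1) := by
    rw [length_pre, Finset.mem_range]
    omega
  exact Finset.le_sup (f := fun r => Kt (pre (c ξ) j) (max r (rt (pre (c ξ) j)))) h4

lemma str_use (hmono : ∀ ξ, Monotone (c ξ))
    (htot : ∀ ξ η, LeS (c ξ) (c η) ∨ LeS (c η) (c ξ)) {A : Set I} {ξ0 : I} {m : ℕ}
    (h : Str c A (pre (c ξ0) m)) (γ : I) :
    ∃ ξ ∈ A, LeS (c γ) (c ξ) ∧ (∀ i < m, c ξ0 i = c ξ i) ∧ ∀ i, c ξ0 i ≤ c ξ i := by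
  obtain ⟨β, h1, h2⟩ := exists_upper2 htot γ ξ0
  obtain ⟨r, hr⟩ := h β
  obtain ⟨r', hr'⟩ := h2
  obtain ⟨ξ, hξ, hpre, hK, hk⟩ := hr (c ξ0 (max r r'))
  rw [length_pre] at hpre hK
  have hag : ∀ i < m, c ξ0 i = c ξ i := fun i hi => (pre_eq_apply hpre hi).symm
  refine ⟨ξ, hξ, h1.trans ⟨r, hk⟩, hag, fun i => ?_⟩
  by_cases him : i < m
  · exact le_of_eq (hag i him)
  · by_cases hi : i ≤ max r r'
    · exact ((hmono ξ0 hi).trans hK).trans (hmono ξ (by omega))
    · have h3 : r ≤ i := by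
        have := le_max_left r r'
        omega
      have h4 : r' ≤ i := by
        have := le_max_right r r'
        omega
      exact (hr' i h4).trans (hk i h3)

lemma not_thetaRefinable (hmono : ∀ ξ, Monotone (c ξ))
    (htot : ∀ ξ η, LeS (c ξ) (c η) ∨ LeS (c η) (c ξ))
    (hunb : ∀ g : ℕ → ℕ, ∃ ξ, ¬ LeS (c ξ) g) : ¬ ThetaRefinable (Pt I c) := by
  classical
  intro hT
  -- the cover
  let U : Set (Set (Pt I c)) :=
    {A | (∃ (s : List ℕ) (ξ : I), A = B c 0 s ξ) ∨ ∃ (η : I) (ζ : I), A = {Pt.z η ζ}}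
  have hU : IsOpenCoverFam U := by
    refine ⟨?_, ?_⟩
    · rintro A (⟨s, ξ, rfl⟩ | ⟨η, ζ, rfl⟩)
      · exact isOpen_B 0 s ξ
      · exact isOpen_z η ζ
    · intro x
      cases x with
      | y s ξ => exact ⟨_, Or.inl ⟨s, ξ, rfl⟩, mem_B _ _ _⟩
      | z η ζ => exact ⟨_, Or.inr ⟨η, ζ, rfl⟩, mem_singleton _⟩
  obtain ⟨V, hV, hfin⟩ := hT U hU
  -- every member of the refinements is bounded
  have hbdd : ∀ n, ∀ A ∈ V n, ∃ ζ : I, ∀ t θ, Pt.y t θ ∈ A → LeS (c θ) (c ζ) := by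
    intro n A hA
    obtain ⟨D, hD, hAD⟩ := (hV n).2 A hA
    rcases hD with ⟨t, ζ, rfl⟩ | ⟨η, ζ, rfl⟩
    · refine ⟨ζ, fun t' θ h => ?_⟩
      rcases hAD h with h | h
      · cases h; exact LeS.refl _
      · exact leS_of_le h.2.2
    · refine ⟨ζ, fun t' θ h => ?_⟩
      have := hAD h
      cases this
  -- choose members and neighbourhoods
  have hG : ∀ n s ξ, ∃ A ∈ V n, ∃ k, B c k s ξ ⊆ A := by
    intro n s ξ
    obtain ⟨A, hA, hmem⟩ := (hV n).1.2 (Pt.y s ξ)
    obtain ⟨k, hk⟩ := exists_B_subset ((hV n).1.1 A hA) hmem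
    exact ⟨A, hA, k, hk⟩
  choose G hGV k hk using hG
  -- the strong nodes
  have hS : ∀ q : ℕ × List ℕ × ℕ, ∃ δ, ∀ ξ ∈ {ξ | k q.1 q.2.1 ξ = q.2.2}, ¬ LeS (c ξ) (c δ) →
      ∀ m0, ∃ m, m0 ≤ m ∧ Str c {ξ | k q.1 q.2.1 ξ = q.2.2} (pre (c ξ) m) :=
    fun q => str_exists htot hunb _
  choose δ hδ using hS
  obtain ⟨δ', hδ'⟩ := exists_upper' htot hunb δ
  obtain ⟨ξ0, hξ0⟩ := hunb (c δ')
  have hstr : ∀ n s m0, ∃ m, m0 ≤ m ∧ Str c {ξ | k n s ξ = k n s ξ0} (pre (c ξ0) m) := by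
    intro n s m0
    refine hδ (n, s, k n s ξ0) ξ0 rfl (fun h => hξ0 (h.trans (hδ' _))) m0
  -- the diagonal function
  let h : List ℕ → ℕ := fun t => (Finset.range (t.length + 1)).sup (fun n => k n t ξ0)
  have hη : ∃ η : I, ¬ Cap h (c η) := by
    by_contra hcon
    push Not at hcon
    obtain ⟨g, hg⟩ := exists_bound h
    obtain ⟨η, hη⟩ := hunb g
    exact hη (hg _ (hcon η))
  obtain ⟨η, hη⟩ := hη
  unfold Cap at hη
  push Not at hη
  obtain ⟨n, hn⟩ := hfin (Pt.z η ξ0)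
  obtain ⟨j, hj, hhj⟩ := hη n
  let s : List ℕ := pre (c η) j
  have hks : k n s ξ0 ≤ c η j := by
    refine le_trans ?_ hhj
    have h2 : n ∈ Finset.range ((pre (c η) j).length + 1) := by
      simp only [length_pre, Finset.mem_range]; omega
    exact Finset.le_sup (f := fun n => k n (pre (c η) j) ξ0) h2
  obtain ⟨m, hm, hSt⟩ := hstr n s (c η j)
  -- contradiction: a finite family of bounded sets
  have hbd2 : ∃ b : I, ∀ A ∈ {A | A ∈ V n ∧ (Pt.z η ξ0 : Pt I c) ∈ A}, ∀ t θ, Pt.y t θ ∈ A →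
      LeS (c θ) (c b) := by
    have : Nonempty I := ⟨ξ0⟩
    have h1 : ∀ A : Set (Pt I c), ∃ b : I, A ∈ V n → ∀ t θ, Pt.y t θ ∈ A → LeS (c θ) (c b) := by
      intro A
      by_cases hA : A ∈ V n
      · obtain ⟨ζ, hζ⟩ := hbdd n A hA
        exact ⟨ζ, fun _ => hζ⟩
      · exact ⟨ξ0, fun h => absurd h hA⟩
    choose bb hbb using h1
    have hct : Countable {A | A ∈ V n ∧ (Pt.z η ξ0 : Pt I c) ∈ A} := hn.countable.to_subtype
    obtain ⟨ξ, hξ, hξ1, hξ2, hξ3⟩ := str_use hmono htot hSt η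
    have hne : Nonempty {A | A ∈ V n ∧ (Pt.z η ξ0 : Pt I c) ∈ A} := by
      refine ⟨⟨G n s ξ, hGV n s ξ, hk n s ξ (Or.inr ⟨hξ1, ⟨c η j, ?_, ?_, ?_⟩, hξ3⟩)⟩⟩
      · rw [show k n s ξ = k n s ξ0 from hξ]; exact hks
      · change pre (c η) (s ++ [c η j]).length = s ++ [c η j]
        rw [List.length_append, List.length_singleton]
        simp only [s, length_pre, pre_succ]
      · exact fun i hi => hξ2 i (by omega)
    obtain ⟨b, hb⟩ := exists_upper' htot hunb
      (fun A : {A | A ∈ V n ∧ (Pt.z η ξ0 : Pt I c) ∈ A} => bb A.1)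
    exact ⟨b, fun A hA t θ h => (hbb A hA.1 t θ h).trans (hb ⟨A, hA⟩)⟩
  obtain ⟨b, hb⟩ := hbd2
  obtain ⟨b', hb'⟩ := hunb (c b)
  obtain ⟨γ, hγ1, hγ2⟩ := exists_upper2 htot η b'
  obtain ⟨ξ, hξ, hξ1, hξ2, hξ3⟩ := str_use hmono htot hSt γ
  have hmem : (Pt.z η ξ0 : Pt I c) ∈ G n s ξ := by
    refine hk n s ξ (Or.inr ⟨hγ1.trans hξ1, ⟨c η j, ?_, ?_, ?_⟩, hξ3⟩)
    · rw [show k n s ξ = k n s ξ0 from hξ]; exact hks
    · change pre (c η) (s ++ [c η j]).length = s ++ [c η j]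
      rw [List.length_append, List.length_singleton]
      simp only [s, length_pre, pre_succ]
    · exact fun i hi => hξ2 i (by omega)
  have h4 := hb (G n s ξ) ⟨hGV n s ξ, hmem⟩ s ξ (hk n s ξ (mem_B _ _ _))
  exact hb' ((hγ2.trans hξ1).trans h4)

end Space

/-- The example: a zero-dimensional Hausdorff (in particular Tychonoff), quasi-developable (in
particular first countable), countably metacompact, weakly theta-refinable space which is not
theta-refinable. -/
theorem result : ∃ (X : Type) (_ : TopologicalSpace X), T35Space X ∧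
    TopologicalSpace.IsTopologicalBasis {A : Set X | IsClopen A} ∧ FirstCountableTopology X ∧
    QuasiDevelopable X ∧ CountablyMetacompact X ∧ WeaklyThetaRefinable X ∧
    ¬ ThetaRefinable X := by
  obtain ⟨I, c, hinj, hmono, htot, hunb⟩ := exists_index
  exact ⟨Pt I c, instTop, t35 hinj, clopen_basis hinj, firstCountable, quasiDevelopable,
    countablyMetacompact hmono htot hunb, weaklyThetaRefinable,
    not_thetaRefinable hmono htot hunb⟩

end WeakTheta

end Pool.Agent.Results.MP_c3273b_gt
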